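import Pool.Agent.Helper92.KX.M_GAP

/-!
# Project KX, module FLX
-/

set_option autoImplicit false

namespace Pool.Agent.Helper61.KX

open Pool.Agent.Helper49.KX
open Finset Filter Topology

theorem zpow_app {X : Type} [TopologicalSpace X] (h : X ≃ₜ X) (m n : ℤ) (x : X) :
    (h ^ m : X ≃ₜ X) ((h ^ n : X ≃ₜ X) x) = (h ^ (m + n) : X ≃ₜ X) x := by
  rw [zpow_add]
  rfl

theorem not_per {X : Type} [TopologicalSpace X] [T2Space X] [Infinite X] (h : X ≃ₜ X)
    (hd : ∀ x, Dense (Set.range fun n : ℤ => (h ^ n : X ≃ₜ X) x)) (t : X) (m : ℤ) (hm : m ≠ 0) :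
    (h ^ (-m) : X ≃ₜ X) t ≠ t := by
  intro he
  rcases lt_or_gt_of_ne hm with h1 | h1
  · have h2 : ((-m).toNat : ℤ) = -m := Int.toNat_of_nonneg (by omega)
    apply Pool.Agent.Helper92.KX.not_periodic h hd t (-m).toNat (by omega)
    rw [h2]
    exact he
  · have h2 : (m.toNat : ℤ) = m := Int.toNat_of_nonneg (by omega)
    apply Pool.Agent.Helper92.KX.not_periodic h hd t m.toNat (by omega)
    rw [h2]
    have h3 := congrArg (fun y => (h ^ m : X ≃ₜ X) y) he
    simp only [zpow_app] at h3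
    rw [show m + -m = 0 by ring, zpow_zero] at h3
    exact h3.symm

theorem tw_single {X : Type} [TopologicalSpace X] (h : X ≃ₜ X) (w : FS X) (k : ℤ) (f : C(X, ℂ)) (n : ℤ) :
    tw h w (Finsupp.single k f) n = w (n - k) * cmp h (-(n - k)) f := by
  have hz : ∀ m : ℤ, cmp h m (0 : C(X, ℂ)) = 0 := by
    intro m
    ext x
    rfl
  have h1 : tw h w (Finsupp.single k f) = w.sum fun m f' => Finsupp.single (m + k) (f' * cmp h (-m) f) := by
    unfold tw
    refine Finsupp.sum_congr fun m _ => ?_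
    rw [Finsupp.sum_single_index]
    rw [hz, mul_zero, Finsupp.single_zero]
  rw [h1, Finsupp.sum_apply]
  unfold Finsupp.sum
  rw [Finset.sum_eq_single (n - k)]
  · show (Finsupp.single (n - k + k) (w (n - k) * cmp h (-(n - k)) f) : FS X) n = _
    rw [Finsupp.single_apply, if_pos (by ring)]
  · intro m _ hm
    show (Finsupp.single (m + k) (w m * cmp h (-m) f) : FS X) n = 0
    rw [Finsupp.single_apply, if_neg]
    intro h2
    apply hm
    omega
  · intro hm
    show (Finsupp.single (n - k + k) (w (n - k) * cmp h (-(n - k)) f) : FS X) n = 0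
    rw [Finsupp.notMem_support_iff.1 hm, zero_mul, Finsupp.single_zero]
    rfl

theorem hFLX : StFlx := by
  classical
  intro X _ _ _ _ _ h hd g hw
  set w := tw h g (un - g) with hwdef
  obtain ⟨n0, hn0⟩ : ∃ n0, w n0 ≠ 0 := by
    by_contra hc
    push Not at hc
    exact hw (Finsupp.ext hc)
  obtain ⟨t1, ht1⟩ : ∃ t1, w n0 t1 ≠ 0 := by
    by_contra hc
    push Not at hc
    exact hn0 (ContinuousMap.ext hc)
  -- separating clopen sets
  have hW : ∀ m : ℤ, ∃ W : Set X, IsClopen W ∧ (m ≠ 0 → t1 ∈ W ∧ (h ^ (-m) : X ≃ₜ X) t1 ∉ W) := by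
    intro m
    by_cases hm : m = 0
    · exact ⟨Set.univ, isClopen_univ, fun h1 => absurd hm h1⟩
    · obtain ⟨W, hW1, hW2, hW3⟩ :=
        exists_isClopen_of_totally_separated (not_per h hd t1 m hm).symm
      exact ⟨W, hW1, fun _ => ⟨hW2, hW3⟩⟩
  choose W hWc hW using hW
  obtain ⟨V0, hV0c, ht1V0, hV0⟩ := compact_exists_isClopen_in_isOpen
    (show IsOpen {x | w n0 x ≠ 0} from isOpen_ne_fun (w n0).continuous continuous_const) ht1
  set S : Finset ℤ := (w.support.image fun m => m - n0).erase 0 with hS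
  set Ym : ℤ → Set X := fun m => W m ∩ (h ^ (-m) : X ≃ₜ X) ⁻¹' (W m)ᶜ with hYm
  have hYc : ∀ m, IsClopen (Ym m) := fun m =>
    (hWc m).inter ((hWc m).compl.preimage (h ^ (-m) : X ≃ₜ X).continuous)
  set V : Set X := V0 ∩ ⋂ m ∈ S, Ym m with hV
  have hVc : IsClopen V := hV0c.inter (isClopen_biInter_finset fun m _ => hYc m)
  have htV : t1 ∈ V := by
    refine ⟨ht1V0, Set.mem_iInter₂.2 fun m hm => ?_⟩
    obtain ⟨h1, h2⟩ := hW m (Finset.mem_erase.1 hm).1
    exact ⟨h1, h2⟩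
  have hVne : ∀ x ∈ V, w n0 x ≠ 0 := fun x hx => hV0 hx.1
  have hVdis : ∀ m : ℤ, m ≠ 0 → w (m + n0) ≠ 0 → ∀ x ∈ V, (h ^ (-m) : X ≃ₜ X) x ∉ V := by
    intro m hm hwm x hx hx'
    have hmS : m ∈ S := by
      refine Finset.mem_erase.2 ⟨hm, Finset.mem_image.2 ⟨m + n0, Finsupp.mem_support_iff.2 hwm, by ring⟩⟩
    have h1 := (Set.mem_iInter₂.1 hx.2 m hmS).2
    exact h1 (Set.mem_iInter₂.1 hx'.2 m hmS).1
  let F : C(X, ℂ) := ⟨V.indicator fun x => (w n0 x)⁻¹, by
    refine continuous_indicator (fun a ha => ?_) ?_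
    · rw [hVc.frontier_eq] at ha
      exact ha.elim
    · rw [hVc.isClosed.closure_eq]
      exact (w n0).continuous.continuousOn.inv₀ hVne⟩
  have hF : ∀ x, F x = if x ∈ V then (w n0 x)⁻¹ else 0 := by
    intro x
    show V.indicator (fun x => (w n0 x)⁻¹) x = _
    rw [Set.indicator_apply]
  have key : ∀ (n : ℤ) (x : X), tw h w (Finsupp.single (-n0) (cmp h n0 F)) n x
      = w (n + n0) x * F ((h ^ (-n) : X ≃ₜ X) x) := by
    intro n x
    rw [tw_single, sub_neg_eq_add, ContinuousMap.mul_apply, cmp_apply, cmp_apply, zpow_app]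
    congr 4
    ring
  refine ⟨Finsupp.single (-n0) (cmp h n0 F), V, hVc, ⟨t1, htV⟩, ?_, ?_⟩
  · intro x hx
    rw [key, zero_add, hF]
    have h0 : (h ^ (-(0 : ℤ)) : X ≃ₜ X) x = x := by
      rw [neg_zero, zpow_zero]
      rfl
    rw [h0, if_pos hx]
    exact mul_inv_cancel₀ (hVne x hx)
  · intro n hn x hx hx'
    rw [key]
    by_cases hwn : w (n + n0) = 0
    · rw [hwn]
      simp
    · exact absurd hx' (hVdis n hn hwn x hx)

end Pool.Agent.Helper61.KX
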